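import Mathlib

/-!
Zeckendorf shift `H`, parity `sg`, and the last digit `ep`.
-/

namespace Pool.Agent.V11199.ZP

open Nat

/-- Zeckendorf left shift. -/
def H (n : ℕ) : ℕ := ((Nat.zeckendorf n).map (fun i => fib (i+1))).sum

/-- parity of the number of Zeckendorf summands. -/
def sg (n : ℕ) : Bool := (Nat.zeckendorf n).length.bodd

/-- does the summand `F_2 = 1` occur. -/
def ep (n : ℕ) : Bool := decide (2 ∈ Nat.zeckendorf n)

lemma zk_zero : Nat.zeckendorf 0 = [] := Nat.zeckendorf_zero

lemma H_zero : H 0 = 0 := by simp [H]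
lemma sg_zero : sg 0 = false := by simp [sg]
lemma ep_zero : ep 0 = false := by simp [ep]

lemma gf_eq {k r : ℕ} (hr : r < fib (k+1)) : Nat.greatestFib (fib (k+2) + r) = k+2 := by
  apply le_antisymm
  · have : Nat.greatestFib (fib (k+2) + r) < k + 3 := by
      rw [Nat.greatestFib_lt]
      have := Nat.fib_add_two (n := k+1)
      have h3 : fib (k+3) = fib (k+1) + fib (k+2) := this
      omega
    omega
  · rw [Nat.le_greatestFib]; omega

lemma zk_rec {k r : ℕ} (hr : r < fib (k+1)) :
    Nat.zeckendorf (fib (k+2) + r) = (k+2) :: Nat.zeckendorf r := by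
  have hpos : 0 < fib (k+2) + r := by
    have : 0 < fib (k+2) := Nat.fib_pos.2 (by omega)
    omega
  rw [Nat.zeckendorf_of_pos hpos, gf_eq hr]
  simp

lemma H_rec {k r : ℕ} (hr : r < fib (k+1)) : H (fib (k+2) + r) = fib (k+3) + H r := by
  unfold H
  rw [zk_rec hr]
  simp

lemma sg_rec {k r : ℕ} (hr : r < fib (k+1)) : sg (fib (k+2) + r) = !sg r := by
  unfold sg
  rw [zk_rec hr]
  simp

lemma ep_rec {k r : ℕ} (hr : r < fib (k+1)) :
    ep (fib (k+2) + r) = (decide (k = 0) || ep r) := by
  unfold ep
  rw [zk_rec hr]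
  rw [Bool.eq_iff_iff]
  simp

/-- greedy decomposition -/
lemma greedy (n : ℕ) (hn : 0 < n) : ∃ k r, r < fib (k+1) ∧ n = fib (k+2) + r := by
  have h1 : fib (Nat.greatestFib n) ≤ n := Nat.fib_greatestFib_le n
  have h2 : n < fib (Nat.greatestFib n + 1) := Nat.lt_fib_greatestFib_add_one n
  have h3 : 2 ≤ Nat.greatestFib n := by
    rw [Nat.le_greatestFib]
    show 1 ≤ n
    exact hn
  obtain ⟨k, hk⟩ : ∃ k, Nat.greatestFib n = k + 2 := ⟨Nat.greatestFib n - 2, by omega⟩
  rw [hk] at h1 h2
  have h4 : fib (k+2+1) = fib (k+1) + fib (k+2) := Nat.fib_add_two (n := k+1)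
  exact ⟨k, n - fib (k+2), by omega, by omega⟩

/-- induction principle by greedy decomposition -/
lemma greedy_induction {P : ℕ → Prop} (h0 : P 0)
    (h1 : ∀ k r, r < fib (k+1) → (∀ r' ≤ r, P r') → P (fib (k+2) + r)) : ∀ n, P n := by
  intro n
  induction n using Nat.strong_induction_on with
  | _ n ih =>
    rcases Nat.eq_zero_or_pos n with h | h
    · rw [h]; exact h0
    · obtain ⟨k, r, hr, hn⟩ := greedy n h
      rw [hn]
      apply h1 k r hr
      intro r' hr'
      apply ih
      have : 0 < fib (k+2) := Nat.fib_pos.2 (by omega)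
      omega

lemma H_lt (n : ℕ) : ∀ j, n < fib j → H n < fib (j+1) := by
  refine greedy_induction (P := fun n => ∀ j, n < fib j → H n < fib (j+1)) ?_ ?_ n
  · intro j _
    rw [H_zero]
    exact Nat.fib_pos.2 (by omega)
  · intro k r hr ih j hj
    rw [H_rec hr]
    have h1 := ih r le_rfl (k+1) hr
    have hkj : k + 3 ≤ j := by
      by_contra hc
      have : j ≤ k+2 := by omega
      have := Nat.fib_mono this
      omega
    have h2 : fib (k+4) ≤ fib (j+1) := Nat.fib_mono (by omega)
    have h3 : fib (k+4) = fib (k+2) + fib (k+3) := Nat.fib_add_two (n := k+2)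
    have h4 : fib (k+1+1) = fib (k+2) := rfl
    omega

lemma H_lt' (n : ℕ) : ∀ j, 2 ≤ j → n < fib j → ep n = false → H n + 1 < fib (j+1) := by
  refine greedy_induction
    (P := fun n => ∀ j, 2 ≤ j → n < fib j → ep n = false → H n + 1 < fib (j+1)) ?_ ?_ n
  · intro j hj _ _
    rw [H_zero]
    have : fib 3 ≤ fib (j+1) := Nat.fib_mono (by omega)
    have h3 : fib 3 = 2 := rfl
    omega
  · intro k r hr ih j hj2 hj he
    rw [H_rec hr]
    rw [ep_rec hr] at he
    simp only [Bool.or_eq_false_iff, decide_eq_false_iff_not] at he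
    have h1 := ih r le_rfl (k+1) (by omega) hr he.2
    have hkj : k + 3 ≤ j := by
      by_contra hc
      have : j ≤ k+2 := by omega
      have := Nat.fib_mono this
      omega
    have h2 : fib (k+4) ≤ fib (j+1) := Nat.fib_mono (by omega)
    have h3 : fib (k+4) = fib (k+2) + fib (k+3) := Nat.fib_add_two (n := k+2)
    have h4 : fib (k+1+1) = fib (k+2) := rfl
    omega

lemma H_strictMono : StrictMono H := by
  intro a b hab
  revert a
  refine greedy_induction (P := fun b => ∀ a, a < b → H a < H b) ?_ ?_ b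
  · intro a ha; omega
  · intro k r hr ih a ha
    rw [H_rec hr]
    by_cases h : fib (k+2) ≤ a
    · obtain ⟨c, rfl⟩ := Nat.exists_eq_add_of_le h
      have hc : c < r := by omega
      rw [H_rec (by omega : c < fib (k+1))]
      have := ih r le_rfl c hc
      omega
    · have := H_lt a (k+2) (by omega)
      have h4 : fib (k+2+1) = fib (k+3) := rfl
      omega

lemma H_H (n : ℕ) : H (H n) = H n + n := by
  refine greedy_induction (P := fun n => H (H n) = H n + n) ?_ ?_ n
  · simp [H_zero]
  · intro k r hr ih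
    have h1 := ih r le_rfl
    have h2 := H_lt r (k+1) hr
    rw [H_rec hr]
    have h3 : H (fib (k+3) + H r) = fib (k+4) + H (H r) := H_rec (k := k+1) h2
    rw [h3, h1]
    have h4 : fib (k+4) = fib (k+2) + fib (k+3) := Nat.fib_add_two (n := k+2)
    omega

lemma sg_H (n : ℕ) : sg (H n) = sg n := by
  refine greedy_induction (P := fun n => sg (H n) = sg n) ?_ ?_ n
  · simp [H_zero]
  · intro k r hr ih
    have h1 := ih r le_rfl
    have h2 := H_lt r (k+1) hr
    rw [H_rec hr, sg_rec hr]
    have h3 : sg (fib (k+3) + H r) = !sg (H r) := sg_rec (k := k+1) h2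
    rw [h3, h1]

lemma ep_H (n : ℕ) : ep (H n) = false := by
  refine greedy_induction (P := fun n => ep (H n) = false) ?_ ?_ n
  · rw [H_zero, ep_zero]
  · intro k r hr ih
    have h1 := ih r le_rfl
    have h2 := H_lt r (k+1) hr
    rw [H_rec hr]
    have h3 : ep (fib (k+3) + H r) = (decide (k+1 = 0) || ep (H r)) := ep_rec (k := k+1) h2
    rw [h3, h1]
    simp

lemma sg_H1 (n : ℕ) : ep n = false → sg (H n + 1) = !sg n := by
  refine greedy_induction (P := fun n => ep n = false → sg (H n + 1) = !sg n) ?_ ?_ n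
  · intro _
    rw [H_zero]
    have : sg (fib (0+2) + 0) = !sg 0 := sg_rec (k := 0) (r := 0) (by simp)
    simpa using this
  · intro k r hr ih he
    rw [ep_rec hr] at he
    simp only [Bool.or_eq_false_iff, decide_eq_false_iff_not] at he
    have h1 := ih r le_rfl he.2
    have h2 := H_lt' r (k+1) (by omega) hr he.2
    rw [H_rec hr, sg_rec hr, add_assoc]
    have h3 : sg (fib (k+3) + (H r + 1)) = !sg (H r + 1) := sg_rec (k := k+1) h2
    rw [h3, h1]

lemma ep_H1 (n : ℕ) : ep n = false → ep (H n + 1) = true := by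
  refine greedy_induction (P := fun n => ep n = false → ep (H n + 1) = true) ?_ ?_ n
  · intro _
    rw [H_zero]
    have : ep (fib (0+2) + 0) = (decide (0=0) || ep 0) := ep_rec (k := 0) (r := 0) (by simp)
    simpa using this
  · intro k r hr ih he
    rw [ep_rec hr] at he
    simp only [Bool.or_eq_false_iff, decide_eq_false_iff_not] at he
    have h1 := ih r le_rfl he.2
    have h2 := H_lt' r (k+1) (by omega) hr he.2
    rw [H_rec hr, add_assoc]
    have h3 : ep (fib (k+3) + (H r + 1)) = (decide (k+1=0) || ep (H r + 1)) :=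
      ep_rec (k := k+1) h2
    rw [h3, h1]
    simp

lemma le_H (n : ℕ) : n ≤ H n := H_strictMono.le_apply

lemma lt_H (n : ℕ) (hn : 0 < n) : n < H n := by
  have h := H_H n
  have h1 : n ≤ H n := le_H n
  rcases Nat.lt_or_ge n (H n) with h2 | h2
  · exact h2
  · have h3 : H n = n := by omega
    rw [h3] at h
    rw [h3] at h
    omega

/-- every number is `H m` or `H m + 1`. -/
lemma surj (n : ℕ) : (ep n = false ∧ ∃ m, H m = n) ∨
    (ep n = true ∧ ∃ m, ep m = false ∧ H m + 1 = n) := by
  refine greedy_induction (P := fun n => (ep n = false ∧ ∃ m, H m = n) ∨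
    (ep n = true ∧ ∃ m, ep m = false ∧ H m + 1 = n)) ?_ ?_ n
  · left; exact ⟨ep_zero, 0, H_zero⟩
  · intro k r hr ih
    have hi := ih r le_rfl
    rcases Nat.eq_zero_or_pos k with hk | hk
    · subst hk
      have hr0 : r = 0 := by
        have : fib (0+1) = 1 := rfl
        omega
      subst hr0
      right
      refine ⟨?_, 0, ep_zero, ?_⟩
      · rw [ep_rec (by simp)]; simp
      · rw [H_zero]; rfl
    · obtain ⟨j, rfl⟩ : ∃ j, k = j + 1 := ⟨k-1, by omega⟩
      -- `r < fib (j+2)`
      have key : ∀ m, H m ≤ r → m < fib (j+1) := by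
        intro m hm
        by_contra hc
        push Not at hc
        have h1 : H (fib (j+1)) ≤ H m := H_strictMono.monotone hc
        rcases Nat.eq_zero_or_pos j with hj | hj
        · subst hj
          have h2 := lt_H (fib (0+1)) (by simp)
          have h3 : fib (0+1+1) = 1 := rfl
          have h4 : fib (0+1) = 1 := rfl
          omega
        · obtain ⟨i, rfl⟩ : ∃ i, j = i + 1 := ⟨j-1, by omega⟩
          have h2 : H (fib (i+2) + 0) = fib (i+3) + H 0 := H_rec (Nat.fib_pos.2 (by omega))
          rw [H_zero] at h2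
          have h3 : fib (i+2) + 0 = fib (i+1+1) := rfl
          rw [h3] at h2
          have h4 : fib (i+1+1+1) = fib (i+3) := rfl
          omega
      rcases hi with ⟨he, m, hm⟩ | ⟨he, m, hem, hm⟩
      · left
        have hmk := key m (by omega)
        refine ⟨?_, fib (j+2) + m, ?_⟩
        · rw [ep_rec hr, he]; simp
        · rw [H_rec hmk, hm]
      · right
        have hmk := key m (by omega)
        refine ⟨?_, fib (j+2) + m, ?_, ?_⟩
        · rw [ep_rec hr, he]; simp
        · rw [ep_rec hmk, hem]
          have hj : j ≠ 0 := by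
            intro hj
            subst hj
            have h3 : fib (0+1+1) = 1 := rfl
            omega
          simp [hj]
        · rw [H_rec hmk, ← hm]
          show fib (j+3) + H m + 1 = fib (j+3) + (H m + 1)
          omega

lemma H_succ_false {m : ℕ} (h : ep m = false) : H (m+1) = H m + 2 := by
  have h1 := ep_H1 m h
  have h2 := ep_H (m+1)
  have h3 : H m < H (m+1) := H_strictMono (Nat.lt_succ_self m)
  have h4 : H (m+1) ≠ H m + 1 := by
    intro hc
    rw [hc, h1] at h2
    exact absurd h2 (by simp)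
  have h5 : H (m+1) ≤ H m + 2 := by
    rcases surj (H m + 2) with ⟨_, m', hm'⟩ | ⟨_, m', hem', hm'⟩
    · have : m < m' := H_strictMono.lt_iff_lt.1 (by omega)
      have := H_strictMono.monotone (show m+1 ≤ m' from this)
      omega
    · have h6 := ep_H m'
      have h7 : H m' = H m + 1 := by omega
      rw [h7, h1] at h6
      exact absurd h6 (by simp)
  omega

lemma H_succ_true {m : ℕ} (h : ep m = true) : H (m+1) = H m + 1 := by
  have h3 : H m < H (m+1) := H_strictMono (Nat.lt_succ_self m)
  rcases surj (H m + 1) with ⟨_, m', hm'⟩ | ⟨_, m', hem', hm'⟩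
  · have : m < m' := H_strictMono.lt_iff_lt.1 (by omega)
    have := H_strictMono.monotone (show m+1 ≤ m' from this)
    omega
  · have h7 : H m' = H m := by omega
    have h8 := H_strictMono.injective h7
    rw [h8, h] at hem'
    exact absurd hem' (by simp)

end Pool.Agent.V11199.ZP
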