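import Pool.Agent.V11199.ZP.Basic

/-!
Zeckendorf parity of squares near Lucas numbers.
-/

namespace Pool.Agent.V11199.ZP

open Nat

/-! ### iterated shift and additivity -/

lemma H_H' (m : ℕ) : H (H m) = H m + m := H_H m

lemma Hit_rec (k m : ℕ) : H^[k+2] m = H^[k+1] m + H^[k] m := by
  rw [Function.iterate_succ_apply', Function.iterate_succ_apply', H_H]

lemma gap (m : ℕ) : ∀ j, H^[j] m + fib (j+1) ≤ H^[j] (m+1) ∧
    H^[j+1] m + fib (j+2) ≤ H^[j+1] (m+1) := by
  intro j
  induction j with
  | zero =>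
    refine ⟨by simp, ?_⟩
    have h1 : H m < H (m+1) := H_strictMono (Nat.lt_succ_self m)
    have h2 : fib (0+2) = 1 := rfl
    rw [h2]
    show H m + 1 ≤ H (m+1)
    omega
  | succ j ih =>
    refine ⟨ih.2, ?_⟩
    rw [show j + 1 + 1 = j + 2 from rfl, Hit_rec, Hit_rec]
    have h3 : fib (j+1+2) = fib (j+1) + fib (j+2) := Nat.fib_add_two
    rw [h3]
    have := ih.1
    have := ih.2
    omega

lemma Hfib (k : ℕ) : H (fib (k+2)) = fib (k+3) := by
  have h3 : H (fib (k+2) + 0) = fib (k+3) + H 0 := H_rec (k := k) (Nat.fib_pos.2 (by omega))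
  rw [H_zero, Nat.add_zero, Nat.add_zero] at h3
  exact h3

lemma Hit_fib (k j : ℕ) : H^[j] (fib (k+2)) = fib (k+2+j) := by
  induction j with
  | zero => rfl
  | succ j ih =>
    rw [Function.iterate_succ_apply', ih]
    have e : k + 2 + j = (k + j) + 2 := by omega
    rw [e, Hfib]
    congr 1
    omega

lemma Hit_zero (j : ℕ) : H^[j] 0 = 0 := by
  induction j with
  | zero => rfl
  | succ j ih => rw [Function.iterate_succ_apply', ih, H_zero]

lemma Hit_mono (j : ℕ) : StrictMono (H^[j]) := H_strictMono.iterate j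

lemma Hit_add_lt {r x k j : ℕ} (hr : r < fib (k+1)) (hx : x < fib (j+1)) :
    H^[j] r + x < fib (k+1+j) := by
  rcases Nat.eq_zero_or_pos k with hk | hk
  · subst hk
    have : r = 0 := by
      have : fib (0+1) = 1 := rfl
      omega
    subst this
    rw [Hit_zero]
    have e : 0 + 1 + j = j + 1 := by omega
    rw [e]; omega
  · obtain ⟨l, rfl⟩ : ∃ l, k = l + 1 := ⟨k-1, by omega⟩
    have h1 := (gap r j).1
    have h2 : H^[j] (r+1) ≤ H^[j] (fib (l+2)) := (Hit_mono j).monotone hr
    rw [Hit_fib] at h2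
    have e : l + 1 + 1 + j = l + 2 + j := by omega
    rw [e]; omega

lemma Hit_recn {k r : ℕ} (hr : r < fib (k+1)) (j : ℕ) :
    H^[j] (fib (k+2) + r) = fib (k+2+j) + H^[j] r := by
  induction j with
  | zero => rfl
  | succ j ih =>
    rw [Function.iterate_succ_apply', ih, Function.iterate_succ_apply']
    have h1 : H^[j] r < fib (k+j+1) := by
      have := Hit_add_lt hr (x := 0) (j := j) (Nat.fib_pos.2 (by omega))
      have e : k + 1 + j = k + j + 1 := by omega
      rw [e] at this
      omega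
    have e : k + 2 + j = k + j + 2 := by omega
    have e2 : k + 2 + (j + 1) = k + j + 3 := by omega
    rw [e, H_rec h1, e2]

/-- additivity of the parity: high part plus low part. -/
lemma sg_add (z : ℕ) {x j : ℕ} (hx : x < fib (j+1)) :
    sg (H^[j] z + x) = xor (sg z) (sg x) := by
  refine greedy_induction (P := fun z => sg (H^[j] z + x) = xor (sg z) (sg x)) ?_ ?_ z
  · rw [Hit_zero, sg_zero]; simp
  · intro k r hr ih
    rw [Hit_recn hr, add_assoc, sg_rec hr]
    have h1 : H^[j] r + x < fib (k+j+1) := by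
      have := Hit_add_lt hr hx
      have e : k + 1 + j = k + j + 1 := by omega
      rwa [e] at this
    have e : k + 2 + j = k + j + 2 := by omega
    rw [e, sg_rec h1, ih r le_rfl]
    cases sg r <;> cases sg x <;> rfl

/-! ### the real estimate for the shift -/

open Real in
lemma err_bound (z : ℕ) :
    (-(goldenRatio⁻¹)^2 < (H z : ℝ) - goldenRatio * z ∧
      (H z : ℝ) - goldenRatio * z < goldenRatio⁻¹) ∧
    (ep z = false → (H z : ℝ) - goldenRatio * z < (goldenRatio⁻¹)^3) := by
  set q : ℝ := goldenRatio⁻¹ with hq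
  have hφ : goldenRatio = 1 + q := by
    rw [hq, inv_goldenRatio, ← one_sub_goldenConj]
    ring
  have hq2 : q^2 = 1 - q := by
    have h1 := goldenRatio_sq
    rw [hφ] at h1
    have h3 : goldenRatio * q = 1 := by
      rw [hq]; exact mul_inv_cancel₀ goldenRatio_ne_zero
    rw [hφ] at h3
    nlinarith
  have hq0 : 0 < q := by rw [hq]; positivity
  have hq1 : q < 1 := by nlinarith
  have hq3 : q^3 = 2*q - 1 := by
    have : q^3 = q * q^2 := by ring
    rw [this, hq2]; nlinarith
  have hhalf : 1/2 < q := by nlinarith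
  induction z using Nat.strong_induction_on with
  | _ z ih =>
    rcases Nat.eq_zero_or_pos z with hz | hz
    · subst hz
      rw [H_zero]
      push_cast
      refine ⟨⟨?_, ?_⟩, fun _ => ?_⟩ <;> nlinarith
    · rcases surj z with ⟨hez, m, hm⟩ | ⟨hez, m, hem, hm⟩
      · have hmz : m < z := by
          rcases Nat.eq_zero_or_pos m with h | h
          · subst h; rw [H_zero] at hm; omega
          · have := lt_H m h; omega
        obtain ⟨⟨h1, h2⟩, _⟩ := ih m hmz
        subst hm
        rw [H_H]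
        push_cast
        have key : ((H m : ℝ) + m) - goldenRatio * H m = -q * ((H m : ℝ) - goldenRatio * m) := by
          rw [hφ]
          have : q * ((1 + q) * (m:ℝ)) = m := by
            have : q * (1 + q) = 1 := by nlinarith
            rw [← mul_assoc, this, one_mul]
          nlinarith
        rw [key]
        refine ⟨⟨?_, ?_⟩, fun _ => ?_⟩
        · nlinarith
        · nlinarith
        · nlinarith
      · have hmz : m < z := by
          have := le_H m; omega
        obtain ⟨⟨h1, h2⟩, h3⟩ := ih m hmz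
        have h3 := h3 hem
        subst hm
        have hH : H (H m + 1) = H m + m + 2 := by
          rw [H_succ_false (ep_H m), H_H]
        rw [hH]
        push_cast
        have key : ((H m : ℝ) + m + 2) - goldenRatio * (H m + 1) =
            -q * ((H m : ℝ) - goldenRatio * m) + (1 - q) := by
          rw [hφ]
          have : q * ((1 + q) * (m:ℝ)) = m := by
            have : q * (1 + q) = 1 := by nlinarith
            rw [← mul_assoc, this, one_mul]
          nlinarith
        rw [key]
        refine ⟨⟨?_, ?_⟩, fun hc => ?_⟩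
        · nlinarith
        · nlinarith
        · rw [hez] at hc; exact absurd hc (by simp)

open Real in
lemma H_eq_of {z w : ℕ} (h : |(w : ℝ) - goldenRatio * z| < (goldenRatio⁻¹)^2) : H z = w := by
  obtain ⟨⟨h1, h2⟩, _⟩ := err_bound z
  set q : ℝ := goldenRatio⁻¹ with hq
  have hq0 : 0 < q := by rw [hq]; positivity
  have hq2 : q^2 = 1 - q := by
    have h1 := goldenRatio_sq
    have h3 : goldenRatio * q = 1 := by
      rw [hq]; exact mul_inv_cancel₀ goldenRatio_ne_zero
    have h4 : (goldenRatio * q)^2 = goldenRatio^2 * q^2 := by ring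
    rw [h3, h1] at h4
    nlinarith
  have hq1 : q < 1 := by nlinarith
  have hq12 : 1/2 < q := by nlinarith
  rw [abs_lt] at h
  have h5 : (H z : ℝ) < w + 1 := by nlinarith
  have h6 : (w : ℝ) < H z + 1 := by nlinarith
  have h7 : H z < w + 1 := by exact_mod_cast h5
  have h8 : w < H z + 1 := by exact_mod_cast h6
  omega

/-! ### Lucas numbers -/

/-- Lucas numbers `2, 1, 3, 4, 7, ...`. -/
def Lc : ℕ → ℕ
  | 0 => 2
  | 1 => 1
  | (n+2) => Lc (n+1) + Lc n

lemma Lc_rec (n : ℕ) : Lc (n+2) = Lc (n+1) + Lc n := rfl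

lemma Lc_eq (n : ℕ) : Lc (n+1) = fib (n+2) + fib n ∧ Lc (n+2) = fib (n+3) + fib (n+1) := by
  induction n with
  | zero => constructor <;> rfl
  | succ n ih =>
    refine ⟨ih.2, ?_⟩
    rw [show n + 1 + 2 = (n+1) + 2 from rfl, Lc_rec (n+1), show n + 1 + 1 = n + 2 from rfl,
      ih.2, ih.1]
    have h1 : fib (n+4) = fib (n+2) + fib (n+3) := Nat.fib_add_two
    have h2 : fib (n+2) = fib n + fib (n+1) := Nat.fib_add_two
    show fib (n+3) + fib (n+1) + (fib (n+2) + fib n) = fib (n+4) + fib (n+2)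
    omega

open Real in
lemma Lc_real (n : ℕ) : (Lc n : ℝ) = goldenRatio^n + goldenConj^n ∧
    (Lc (n+1) : ℝ) = goldenRatio^(n+1) + goldenConj^(n+1) := by
  induction n with
  | zero =>
    constructor
    · show ((2:ℕ):ℝ) = _
      norm_num
    · show ((1:ℕ):ℝ) = _
      rw [pow_one, pow_one, goldenRatio_add_goldenConj]; norm_num
  | succ n ih =>
    refine ⟨ih.2, ?_⟩
    rw [show n + 1 + 1 = n + 2 from rfl, Lc_rec]
    push_cast
    rw [ih.1, ih.2]
    have h1 : goldenRatio^(n+2) = goldenRatio^n * goldenRatio^2 := by ring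
    have h2 : goldenConj^(n+2) = goldenConj^n * goldenConj^2 := by ring
    rw [h1, h2, goldenRatio_sq, goldenConj_sq]
    ring

open Real in
lemma Lc_sq_even (a : ℕ) : Lc (2*a) * Lc (2*a) = Lc (4*a) + 2 := by
  have h : ((Lc (2*a) : ℝ)) * Lc (2*a) = Lc (4*a) + 2 := by
    rw [(Lc_real (2*a)).1, (Lc_real (4*a)).1]
    have h1 : goldenRatio^(4*a) = goldenRatio^(2*a) * goldenRatio^(2*a) := by
      rw [← pow_add]; congr 1; omega
    have h2 : goldenConj^(4*a) = goldenConj^(2*a) * goldenConj^(2*a) := by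
      rw [← pow_add]; congr 1; omega
    have h3 : goldenRatio^(2*a) * goldenConj^(2*a) = 1 := by
      rw [← mul_pow, goldenRatio_mul_goldenConj, pow_mul]; norm_num
    rw [h1, h2]
    linear_combination 2 * h3
  exact_mod_cast h

open Real in
lemma Lc_sq_odd (a : ℕ) : Lc (2*a+1) * Lc (2*a+1) + 2 = Lc (2*(2*a+1)) := by
  have h : ((Lc (2*a+1) : ℝ)) * Lc (2*a+1) + 2 = Lc (2*(2*a+1)) := by
    rw [(Lc_real (2*a+1)).1, (Lc_real (2*(2*a+1))).1]
    have h1 : goldenRatio^(2*(2*a+1)) = goldenRatio^(2*a+1) * goldenRatio^(2*a+1) := by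
      rw [← pow_add]; congr 1; omega
    have h2 : goldenConj^(2*(2*a+1)) = goldenConj^(2*a+1) * goldenConj^(2*a+1) := by
      rw [← pow_add]; congr 1; omega
    have h3 : goldenRatio^(2*a+1) * goldenConj^(2*a+1) = -1 := by
      rw [← mul_pow, goldenRatio_mul_goldenConj, pow_succ, pow_mul]; norm_num
    rw [h1, h2]
    linear_combination 2 * h3
  exact_mod_cast h

open Real in
/-- `L_{d+κ} L_κ + L_d = L_{d+2κ}` for odd `κ`. -/
lemma Lc_mul_odd (a d : ℕ) : Lc (d + (2*a+1)) * Lc (2*a+1) + Lc d = Lc (d + 2*(2*a+1)) := by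
  have h : ((Lc (d + (2*a+1)) : ℝ)) * Lc (2*a+1) + Lc d = Lc (d + 2*(2*a+1)) := by
    rw [(Lc_real (d + (2*a+1))).1, (Lc_real (2*a+1)).1, (Lc_real d).1,
      (Lc_real (d+2*(2*a+1))).1]
    have h1 : goldenRatio^(d+2*(2*a+1)) =
        goldenRatio^d * goldenRatio^(2*a+1) * goldenRatio^(2*a+1) := by
      rw [← pow_add, ← pow_add]; congr 1; omega
    have h2 : goldenConj^(d+2*(2*a+1)) =
        goldenConj^d * goldenConj^(2*a+1) * goldenConj^(2*a+1) := by
      rw [← pow_add, ← pow_add]; congr 1; omega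
    have h3 : goldenRatio^(2*a+1) * goldenConj^(2*a+1) = -1 := by
      rw [← mul_pow, goldenRatio_mul_goldenConj, pow_succ, pow_mul]; norm_num
    rw [h1, h2, pow_add, pow_add]
    linear_combination (goldenRatio^d + goldenConj^d) * h3
  exact_mod_cast h

open Real in
lemma Lc_err (n : ℕ) : (Lc (n+1) : ℝ) - goldenRatio * Lc n = -√5 * goldenConj^n := by
  rw [(Lc_real n).1, (Lc_real n).2, pow_succ, pow_succ]
  have h : goldenRatio - goldenConj = √5 := goldenRatio_sub_goldenConj
  rw [← h]
  ring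

open Real in
lemma fib_q (h : ℕ) : (fib h : ℝ) * (goldenRatio⁻¹)^h ≤ 1 ∧
    (fib (h+1) : ℝ) * (goldenRatio⁻¹)^(h+1) ≤ 1 := by
  set q : ℝ := goldenRatio⁻¹ with hq
  have hq0 : 0 < q := by rw [hq]; positivity
  have hq2 : q^2 = 1 - q := by
    have h1 := goldenRatio_sq
    have h3 : goldenRatio * q = 1 := by
      rw [hq]; exact mul_inv_cancel₀ goldenRatio_ne_zero
    have h4 : (goldenRatio * q)^2 = goldenRatio^2 * q^2 := by ring
    rw [h3, h1] at h4
    nlinarith
  have hq1 : q < 1 := by nlinarith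
  induction h with
  | zero =>
    constructor
    · simp
    · simp; exact hq1.le
  | succ h ih =>
    refine ⟨ih.2, ?_⟩
    have h1 : fib (h+1+1) = fib h + fib (h+1) := Nat.fib_add_two
    rw [h1]
    push_cast
    have h2 : ((fib h : ℝ) + fib (h+1)) * q^(h+1+1) =
        (fib h * q^h) * q^2 + (fib (h+1) * q^(h+1)) * q := by ring
    rw [h2]
    have h3 := ih.1
    have h4 := ih.2
    nlinarith

end Pool.Agent.V11199.ZP
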