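import Pool.Agent.V11199.ZP.Poly

/-!
Repeated windows in the Zeckendorf parity of squares.
-/

namespace Pool.Agent.V11199.ZP

open Nat

open Real in
lemma H_Lc {h i a m : ℕ} (hi : h + 6 ≤ i) (ha : i ≤ a) (hm : m + 1 ≤ 2 * fib h) :
    H (Lc a + m * Lc i) = Lc (a+1) + m * Lc (i+1) := by
  apply H_eq_of
  set q : ℝ := goldenRatio⁻¹ with hq
  have hq0 : 0 < q := by rw [hq]; positivity
  have hψ : goldenConj = -q := by rw [hq, inv_goldenRatio]; ring
  have hφ : goldenRatio = 1 + q := by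
    rw [hq, inv_goldenRatio, ← one_sub_goldenConj]
    ring
  have hq2 : q^2 = 1 - q := by
    have h1 := goldenRatio_sq
    rw [hφ] at h1
    have h3 : goldenRatio * q = 1 := by
      rw [hq]; exact mul_inv_cancel₀ goldenRatio_ne_zero
    rw [hφ] at h3
    nlinarith
  have hq1 : q < 1 := by nlinarith
  have h5 : √5 = 2 * q + 1 := by
    have : goldenRatio - goldenConj = √5 := goldenRatio_sub_goldenConj
    rw [← this, hφ, hψ]; ring
  have hq6 : q^6 = 5 - 8*q := by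
    have : q^6 = (q^2)^3 := by ring
    rw [this, hq2]
    nlinarith
  have hqs : q < 23/37 := by nlinarith
  have e1 := Lc_err a
  have e2 := Lc_err i
  have key : ((Lc (a+1) + m * Lc (i+1) : ℕ) : ℝ) - goldenRatio * ((Lc a + m * Lc i : ℕ) : ℝ) =
      -√5 * (goldenConj^a + m * goldenConj^i) := by
    push_cast
    linear_combination e1 + m * e2
  rw [key, hψ]
  have hab : |(-q)^a + (m:ℝ) * (-q)^i| ≤ (m+1) * q^i := by
    calc |(-q)^a + (m:ℝ) * (-q)^i| ≤ |(-q)^a| + |(m:ℝ) * (-q)^i| := abs_add_le _ _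
      _ = q^a + m * q^i := by
          rw [abs_mul, abs_pow, abs_pow, abs_neg, abs_of_pos hq0, Nat.abs_cast]
      _ ≤ q^i + m * q^i := by
          have : q^a ≤ q^i := pow_le_pow_of_le_one hq0.le hq1.le ha
          linarith
      _ = (m+1) * q^i := by ring
  have hqi : q^i ≤ q^(h+6) := pow_le_pow_of_le_one hq0.le hq1.le hi
  have hf := (fib_q h).1
  have hm' : ((m:ℝ)+1) ≤ 2 * fib h := by exact_mod_cast hm
  have h7 : (m+1) * q^i ≤ 2 * q^6 := by
    calc ((m:ℝ)+1) * q^i ≤ (2 * fib h) * q^(h+6) := by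
          apply mul_le_mul hm' hqi (by positivity) (by positivity)
      _ = 2 * (fib h * q^h) * q^6 := by ring
      _ ≤ 2 * 1 * q^6 := by
          apply mul_le_mul_of_nonneg_right _ (by positivity)
          linarith
      _ = 2 * q^6 := by ring
  rw [abs_mul, abs_neg, abs_of_nonneg (Real.sqrt_nonneg 5)]
  calc √5 * |(-q)^a + (m:ℝ) * (-q)^i| ≤ √5 * (2 * q^6) := by
        apply mul_le_mul_of_nonneg_left (le_trans hab h7) (Real.sqrt_nonneg 5)
    _ < q^2 := by
        rw [h5, hq6, hq2]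
        nlinarith

lemma Hit_Lc {h i a m : ℕ} (hi : h + 6 ≤ i) (ha : i ≤ a) (hm : m + 1 ≤ 2 * fib h) (j : ℕ) :
    H^[j] (Lc a + m * Lc i) = Lc (a+j) + m * Lc (i+j) := by
  induction j with
  | zero => rfl
  | succ j ih =>
    rw [Function.iterate_succ_apply', ih, H_Lc (by omega) (by omega) hm]
    rfl

/-- removing a large Lucas number does not change the parity. -/
lemma sg_Lc {c y : ℕ} (hy : y < fib (c+1)) : sg (Lc (c+3) + y) = sg y := by
  rw [(Lc_eq (c+1)).2]
  have h1 : fib (c+3) = fib (c+1) + fib (c+2) := Nat.fib_add_two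
  show sg (fib (c+4) + fib (c+2) + y) = sg y
  rw [add_assoc, sg_rec (k := c+2) (by show fib (c+2) + y < fib (c+3); omega), sg_rec hy]
  simp

/-- parity of the squares near `L_k`, `k = i + j` even. -/
lemma sg_sq {h i j t : ℕ} (hij : (i + j) % 2 = 0) (hi : h + 6 ≤ i) (ht : t < fib h)
    (ht2 : t * t + 2 < fib (j+1)) (hti : 2 * t * Lc i < fib (i+j+i-2)) :
    sg ((Lc (i+j) + t) * (Lc (i+j) + t)) = xor (sg (2 * t * Lc i)) (sg (t*t+2)) := by
  obtain ⟨a, ha⟩ : ∃ a, i + j = 2 * a := ⟨(i+j)/2, by omega⟩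
  have h1 : Lc (i+j) * Lc (i+j) = Lc (2*(i+j)) + 2 := by
    rw [ha, Lc_sq_even]
    congr 2
    ring
  have h2 : (Lc (i+j) + t) * (Lc (i+j) + t) =
      (Lc (i+j+i+j) + 2 * t * Lc (i+j)) + (t*t+2) := by
    have e : 2*(i+j) = i+j+i+j := by ring
    rw [e] at h1
    calc (Lc (i+j) + t) * (Lc (i+j) + t) =
        Lc (i+j) * Lc (i+j) + 2 * t * Lc (i+j) + t * t := by ring
      _ = _ := by rw [h1]; ring
  have h3 := Hit_Lc (h := h) (i := i) (a := i+j+i) (m := 2*t) hi (by omega) (by omega) j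
  rw [h2, ← h3, sg_add _ ht2]
  have h4 : sg (Lc (i+j+i) + 2 * t * Lc i) = sg (2*t*Lc i) := by
    have e : i+j+i = (i+j+i-3) + 3 := by omega
    rw [e]
    apply sg_Lc
    have e2 : i+j+i-3+1 = i+j+i-2 := by omega
    rw [e2]; exact hti
  rw [h4]

lemma Lc_le_fib (n : ℕ) : Lc (n+1) ≤ fib (n+3) := by
  rw [(Lc_eq n).1]
  have h1 : fib (n+3) = fib (n+1) + fib (n+2) := Nat.fib_add_two
  have h2 : fib n ≤ fib (n+1) := Nat.fib_mono (by omega)
  omega

lemma fib_mul_le (m n : ℕ) : fib (m+1) * fib (n+1) ≤ fib (m+n+1) := by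
  rw [Nat.fib_add]; omega

lemma two_fib_le (n : ℕ) : 2 * fib n ≤ fib (n+2) := by
  have h1 : fib (n+2) = fib n + fib (n+1) := Nat.fib_add_two
  have h2 : fib n ≤ fib (n+1) := Nat.fib_mono (by omega)
  omega

/-- the windows agree. -/
lemma window {g t : ℕ} (hg : 1 ≤ g) (ht : t < fib (2*g)) :
    sg ((Lc (6*g+6) + t) * (Lc (6*g+6) + t)) = sg ((Lc (6*g+8) + t) * (Lc (6*g+8) + t)) := by
  have hF1 : 2 ≤ fib (2*g+1) := by
    have : fib 3 ≤ fib (2*g+1) := Nat.fib_mono (by omega)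
    exact this
  have ht2 : t * t + 2 < fib (4*g+1) := by
    have h1 : fib (2*g+2*g+1) = fib (2*g) * fib (2*g) + fib (2*g+1) * fib (2*g+1) :=
      Nat.fib_add _ _
    have e : 2*g+2*g+1 = 4*g+1 := by omega
    rw [e] at h1
    have h2 : t * t ≤ fib (2*g) * fib (2*g) := Nat.mul_le_mul ht.le ht.le
    have h3 : 2 * 2 ≤ fib (2*g+1) * fib (2*g+1) := Nat.mul_le_mul hF1 hF1
    omega
  have ht3 : 2 * t * Lc (2*g+6) < fib (8*g+10) := by
    have h1 : Lc (2*g+5+1) ≤ fib (2*g+5+3) := Lc_le_fib _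
    have h2 : t * Lc (2*g+6) ≤ fib (2*g) * fib (2*g+8) := Nat.mul_le_mul ht.le h1
    obtain ⟨c, hc⟩ : ∃ c, 2*g = c+1 := ⟨2*g-1, by omega⟩
    have h3 := fib_mul_le c (2*g+7)
    have e1 : c + (2*g+7) + 1 = 4*g+7 := by omega
    rw [e1, ← hc] at h3
    have h4 := two_fib_le (4*g+7)
    have h5 : fib (4*g+7+2) < fib (8*g+10) := by
      have : fib (4*g+9) < fib (4*g+10) := Nat.fib_lt_fib_succ (by omega)
      have h6 : fib (4*g+10) ≤ fib (8*g+10) := Nat.fib_mono (by omega)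
      exact lt_of_lt_of_le this h6
    have h7 : t * Lc (2*g+6) ≤ fib (4*g+7) := le_trans h2 h3
    nlinarith
  have w1 := sg_sq (h := 2*g) (i := 2*g+6) (j := 4*g) (t := t) (by omega) (by omega) ht ht2
    (by
      have e : 2*g+6+4*g+(2*g+6)-2 = 8*g+10 := by omega
      rw [e]; exact ht3)
  have w2 := sg_sq (h := 2*g) (i := 2*g+6) (j := 4*g+2) (t := t) (by omega) (by omega) ht
    (lt_of_lt_of_le ht2 (Nat.fib_mono (by omega)))
    (by
      have e : 2*g+6+(4*g+2)+(2*g+6)-2 = 8*g+12 := by omega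
      rw [e]; exact lt_of_lt_of_le ht3 (Nat.fib_mono (by omega)))
  have e1 : 2*g+6+4*g = 6*g+6 := by omega
  have e2 : 2*g+6+(4*g+2) = 6*g+8 := by omega
  rw [e1] at w1
  rw [e2] at w2
  rw [w1, w2]

lemma sgR : ∀ (N b y z : ℕ), y < fib (b+1) → z + fib (b+1) = fib (b+2*N+1) + y →
    sg z = xor (sg y) N.bodd ∧ z < fib (b+2*N+1) := by
  intro N
  induction N with
  | zero =>
    intro b y z hy hz
    have : z = y := by
      have e : b + 2*0 + 1 = b + 1 := by omega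
      rw [e] at hz; omega
    subst this
    refine ⟨by simp, ?_⟩
    simpa using hy
  | succ N ih =>
    intro b y z hy hz
    have h1 : fib (b+2*N+3) = fib (b+2*N+1) + fib (b+2*N+2) := Nat.fib_add_two
    have e : b + 2*(N+1) + 1 = b+2*N+3 := by omega
    rw [e] at hz ⊢
    have hmono : fib (b+1) ≤ fib (b+2*N+1) := Nat.fib_mono (by omega)
    obtain ⟨z', rfl⟩ : ∃ z', z = fib (b+2*N+2) + z' := ⟨z - fib (b+2*N+2), by omega⟩
    obtain ⟨i1, i2⟩ := ih b y z' hy (by omega)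
    refine ⟨?_, by omega⟩
    rw [sg_rec i2, i1, Nat.bodd_succ]
    cases sg y <;> cases N.bodd <;> rfl

lemma two_Lc (m : ℕ) : 2 * Lc (m+4) = fib (m+7) + fib (m+1) := by
  have h := (Lc_eq (m+3)).1
  have e : m + 3 + 1 = m + 4 := by omega
  rw [e] at h
  rw [h]
  have h1 : fib (m+3) = fib (m+1) + fib (m+2) := Nat.fib_add_two
  have h2 : fib (m+4) = fib (m+2) + fib (m+3) := Nat.fib_add_two
  have h3 : fib (m+5) = fib (m+3) + fib (m+4) := Nat.fib_add_two
  have h4 : fib (m+6) = fib (m+4) + fib (m+5) := Nat.fib_add_two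
  have h5 : fib (m+7) = fib (m+5) + fib (m+6) := Nat.fib_add_two
  show 2 * (fib (m+5) + fib (m+3)) = _
  omega

lemma sg_two : sg 2 = true := by
  have h : sg (fib (1+2) + 0) = !sg 0 := sg_rec (k := 1) (r := 0) (by decide)
  rw [sg_zero] at h
  exact h

/-- the mismatch: `n = 2a+1` odd, `n ≥ 5`. -/
lemma mismatch {a : ℕ} (ha : 2 ≤ a) :
    sg (Lc (3*(2*a+1)+7) * Lc (3*(2*a+1)+7)) = true ∧
    sg ((Lc (3*(2*a+1)+7) + Lc (2*a+1)) * (Lc (3*(2*a+1)+7) + Lc (2*a+1))) = false := by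
  have hq : Lc (3*(2*a+1)+7) * Lc (3*(2*a+1)+7) = Lc (2*(3*(2*a+1)+7)) + 2 := by
    have e : 3*(2*a+1)+7 = 2*(3*a+5) := by ring
    rw [e, Lc_sq_even]
    congr 2
    ring
  constructor
  · rw [hq]
    have e : 2*(3*(2*a+1)+7) = (12*a+17) + 3 := by ring
    rw [e, sg_Lc, sg_two]
    have : fib 4 ≤ fib (12*a+17+1) := Nat.fib_mono (by omega)
    have h4 : fib 4 = 3 := rfl
    omega
  · set n := 2*a+1 with hn
    have hn2 := Lc_sq_odd a
    rw [← hn] at hn2
    have hprod := Lc_mul_odd a (2*n+7)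
    rw [← hn] at hprod
    have e1 : 2*n+7+n = 3*n+7 := by omega
    have e2 : 2*n+7+2*n = 4*n+7 := by omega
    rw [e1, e2] at hprod
    have d1 := two_Lc (4*n+3)
    have d2 := two_Lc (2*n+3)
    have e3 : 4*n+3+4 = 4*n+7 := by omega
    have e4 : 2*n+3+4 = 2*n+7 := by omega
    rw [e3] at d1
    rw [e4] at d2
    -- the lower pieces
    have y0 : sg (Lc (2*n)) = false ∧ Lc (2*n) < fib (2*n+2) := by
      have e5 : 2*n = (2*n-3)+3 := by omega
      have h1 : sg (Lc (2*n-3+3) + 0) = sg 0 := sg_Lc (Nat.fib_pos.2 (by omega))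
      rw [← e5, Nat.add_zero, sg_zero] at h1
      refine ⟨h1, ?_⟩
      have h2 := (Lc_eq (2*n-1)).1
      have e6 : 2*n-1+1 = 2*n := by omega
      have e7 : 2*n-1+2 = 2*n+1 := by omega
      rw [e6, e7] at h2
      have h3 : fib (2*n+2) = fib (2*n) + fib (2*n+1) := Nat.fib_add_two
      have h4 : fib (2*n-1) < fib (2*n-1+1) := Nat.fib_lt_fib_succ (by omega)
      rw [e6] at h4
      omega
    obtain ⟨s0, l0⟩ := y0
    have r3 : fib (2*n+4) = fib (2*n+2) + fib (2*n+3) := Nat.fib_add_two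
    have r4 : fib (2*n+5) = fib (2*n+3) + fib (2*n+4) := Nat.fib_add_two
    have r5 : fib (2*n+6) = fib (2*n+4) + fib (2*n+5) := Nat.fib_add_two
    have r6 : fib (2*n+7) = fib (2*n+5) + fib (2*n+6) := Nat.fib_add_two
    have r7 : fib (2*n+8) = fib (2*n+6) + fib (2*n+7) := Nat.fib_add_two
    have r8 : fib (2*n+9) = fib (2*n+7) + fib (2*n+8) := Nat.fib_add_two
    have r9 : fib (2*n+10) = fib (2*n+8) + fib (2*n+9) := Nat.fib_add_two
    have r10 : fib (2*n+11) = fib (2*n+9) + fib (2*n+10) := Nat.fib_add_two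
    have r11 : fib (2*n+12) = fib (2*n+10) + fib (2*n+11) := Nat.fib_add_two
    have t1 : sg (fib (2*n+3) + Lc (2*n)) = true := by
      have := sg_rec (k := 2*n+1) (r := Lc (2*n)) (by show _ < fib (2*n+2); exact l0)
      rw [s0] at this
      exact this
    have t2 : sg (fib (2*n+6) + (fib (2*n+3) + Lc (2*n))) = false := by
      have := sg_rec (k := 2*n+4) (r := fib (2*n+3) + Lc (2*n))
        (by show _ < fib (2*n+5); omega)
      rw [t1] at this
      exact this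
    have t3 : sg (fib (2*n+8) + (fib (2*n+6) + (fib (2*n+3) + Lc (2*n)))) = true := by
      have := sg_rec (k := 2*n+6) (r := fib (2*n+6) + (fib (2*n+3) + Lc (2*n)))
        (by show _ < fib (2*n+7); omega)
      rw [t2] at this
      exact this
    have t4 : sg (fib (2*n+10) + (fib (2*n+8) + (fib (2*n+6) + (fib (2*n+3) + Lc (2*n))))) =
        false := by
      have := sg_rec (k := 2*n+8) (r := fib (2*n+8) + (fib (2*n+6) + (fib (2*n+3) + Lc (2*n))))
        (by show _ < fib (2*n+9); omega)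
      rw [t3] at this
      exact this
    -- y2
    have hm1 : fib (2*n+12) ≤ fib (4*n+4) := Nat.fib_mono (by omega)
    obtain ⟨y2, hy2⟩ : ∃ y2, y2 + fib (2*n+12) = fib (4*n+4) +
        (fib (2*n+10) + (fib (2*n+8) + (fib (2*n+6) + (fib (2*n+3) + Lc (2*n))))) :=
      ⟨fib (4*n+4) + (fib (2*n+10) + (fib (2*n+8) + (fib (2*n+6) + (fib (2*n+3) + Lc (2*n)))))
        - fib (2*n+12), by omega⟩
    have e8 : 2*n+11+2*(n-4)+1 = 4*n+4 := by omega
    obtain ⟨t5, l5⟩ := sgR (n-4) (2*n+11)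
      (fib (2*n+10) + (fib (2*n+8) + (fib (2*n+6) + (fib (2*n+3) + Lc (2*n))))) y2
      (by show _ < fib (2*n+12); omega) (by rw [e8]; exact hy2)
    rw [e8] at l5
    have hbodd : (n-4).bodd = true := by
      have e9 : n - 4 = 2*(a-2)+1 := by omega
      rw [e9, Nat.bodd_succ, Nat.bodd_mul]
      rfl
    rw [t4, hbodd] at t5
    have l6 : y2 < fib (4*n+9) := lt_of_lt_of_le l5 (Nat.fib_mono (by omega))
    have t6 : sg (fib (4*n+10) + y2) = false := by
      have := sg_rec (k := 4*n+8) (r := y2) l6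
      rw [t5] at this
      exact this
    have l7 : fib (4*n+10) + y2 < fib (6*n+12) := by
      have h1 : fib (4*n+11) = fib (4*n+9) + fib (4*n+10) := Nat.fib_add_two
      have h2 : fib (4*n+11) ≤ fib (6*n+12) := Nat.fib_mono (by omega)
      omega
    have t7 := sg_Lc (c := 6*n+11) (y := fib (4*n+10) + y2) l7
    rw [t6] at t7
    have e10 : 6*n+11+3 = 2*(3*n+7) := by ring
    rw [e10] at t7
    have hZ : (Lc (3*n+7) + Lc n) * (Lc (3*n+7) + Lc n) = Lc (2*(3*n+7)) + (fib (4*n+10) + y2) := by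
      have h1 : (Lc (3*n+7) + Lc n) * (Lc (3*n+7) + Lc n) =
        Lc (3*n+7) * Lc (3*n+7) + 2 * (Lc (3*n+7) * Lc n) + Lc n * Lc n := by ring
      rw [h1, hq]
      have d1' : 2 * Lc (4*n+7) = fib (4*n+10) + fib (4*n+4) := d1
      have d2' : 2 * Lc (2*n+7) = fib (2*n+10) + fib (2*n+4) := d2
      omega
    rw [hZ]
    exact t7

end Pool.Agent.V11199.ZP
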