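import Pool.Agent.V11199.ZP.Win

/-!
Desubstitution of repeated factors.
-/

namespace Pool.Agent.V11199.ZP

open Nat

/-- windows of length `d` at `i < j` agree, and the parities at offset `d` differ. -/
structure Tr (i j d : ℕ) : Prop where
  lt : i < j
  eq : ∀ t < d, x (i+t) = x (j+t)
  ne : sg (i+d) ≠ sg (j+d)

lemma H_le_add (m L : ℕ) : H (m+L) ≤ H m + 2 * L := by
  induction L with
  | zero => simp
  | succ L ih =>
    have : m + (L+1) = m + L + 1 := by omega
    rw [this]
    cases h : ep (m+L)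
    · rw [H_succ_false h]; omega
    · rw [H_succ_true h]; omega

lemma Tr.lift {i j d : ℕ} (h : Tr i j d) : Tr (H i) (H j) (H (j+d) - H j) := by
  have h1 : win i d = win j d := (win_eq_iff i j d).2 h.eq
  have h2 := win_H i d
  have h3 := win_H j d
  rw [h1, ← h3] at h2
  have h4 : H (i+d) - H i = H (j+d) - H j := by
    have := congrArg List.length h2
    rwa [win_length, win_length] at this
  have h5 : H i ≤ H (i+d) := H_strictMono.monotone (by omega)
  have h6 : H j ≤ H (j+d) := H_strictMono.monotone (by omega)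
  rw [h4] at h2
  refine ⟨H_strictMono h.lt, (win_eq_iff _ _ _).1 h2, ?_⟩
  have e1 : H i + (H (j+d) - H j) = H (i+d) := by omega
  have e2 : H j + (H (j+d) - H j) = H (j+d) := by omega
  rw [e1, e2, sg_H, sg_H]
  exact h.ne

lemma ep_H_succ (m : ℕ) : ep (H m + 1) = !ep m := by
  cases h : ep m
  · rw [ep_H1 m h]; rfl
  · have := ep_H (m+1)
    rw [H_succ_true h] at this
    rw [this]; rfl

lemma core {i0 j0 ie je : ℕ} (hi : H i0 + (H je - H j0) = H ie) (hj : j0 < je)
    (hw : ∀ t < H je - H j0, x (H i0 + t) = x (H j0 + t)) :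
    ie = i0 + (je - j0) ∧ ∀ t < je - j0, x (i0+t) = x (j0+t) := by
  have key : ∀ t, t ≤ je - j0 → (H (i0+t) + H j0 = H (j0+t) + H i0) ∧
      ∀ u < t, x (i0+u) = x (j0+u) := by
    intro t
    induction t with
    | zero => intro _; exact ⟨by simp [add_comm], by intro u hu; omega⟩
    | succ t ih =>
      intro ht
      obtain ⟨h1, h2⟩ := ih (by omega)
      have hb : H (j0+t) < H je := H_strictMono (by omega)
      have hb' : H j0 ≤ H (j0+t) := H_strictMono.monotone (by omega)
      have ha' : H i0 ≤ H (i0+t) := H_strictMono.monotone (by omega)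
      have hw1 := hw (H (j0+t) - H j0) (by omega)
      have e1 : H i0 + (H (j0+t) - H j0) = H (i0+t) := by omega
      have e2 : H j0 + (H (j0+t) - H j0) = H (j0+t) := by omega
      rw [e1, e2] at hw1
      have hs : sg (i0+t) = sg (j0+t) := by
        have := congrArg Prod.fst hw1
        simpa [x, sg_H] using this
      have he' : ep (H (i0+t) + 1) = ep (H (j0+t) + 1) := by
        rcases Nat.lt_or_ge (H (j0+t) - H j0 + 1) (H je - H j0) with hc | hc
        · have hw2 := hw (H (j0+t) - H j0 + 1) hc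
          have e3 : H i0 + (H (j0+t) - H j0 + 1) = H (i0+t) + 1 := by omega
          have e4 : H j0 + (H (j0+t) - H j0 + 1) = H (j0+t) + 1 := by omega
          rw [e3, e4] at hw2
          exact congrArg Prod.snd hw2
        · have e5 : H (j0+t) + 1 = H je := by omega
          have e6 : H (i0+t) + 1 = H ie := by omega
          rw [e5, e6, ep_H, ep_H]
      have he : ep (i0+t) = ep (j0+t) := by
        rw [ep_H_succ, ep_H_succ] at he'
        simpa using he'
      have hx : x (i0+t) = x (j0+t) := by simp [x, hs, he]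
      refine ⟨?_, ?_⟩
      · have a1 : i0 + (t+1) = i0 + t + 1 := by omega
        have a2 : j0 + (t+1) = j0 + t + 1 := by omega
        rw [a1, a2]
        cases hc : ep (j0+t)
        · rw [hc] at he
          rw [H_succ_false he, H_succ_false hc]; omega
        · rw [hc] at he
          rw [H_succ_true he, H_succ_true hc]; omega
      · intro u hu
        rcases Nat.lt_succ_iff_lt_or_eq.1 hu with h | h
        · exact h2 u h
        · rw [h]; exact hx
  obtain ⟨h1, h2⟩ := key (je - j0) le_rfl
  have e1 : j0 + (je - j0) = je := by omega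
  have hje : H j0 < H je := H_strictMono hj
  rw [e1] at h1
  refine ⟨?_, h2⟩
  apply H_strictMono.injective
  omega

lemma Tr.desub {i j d : ℕ} (h : Tr i j d) (hd : 7 ≤ d) :
    ∃ i0 j0 d0, Tr i0 j0 d0 ∧ H (j0+d0) = j + d ∧ H j0 ≤ j ∧ 1 ≤ d0 := by
  have hep : ep (i+d) = false ∧ ep (j+d) = false := by
    have h1 := next_letters (n := i + (d-7)) (m := j + (d-7)) ?_ ?_
    · have e1 : i + (d-7) + 7 = i + d := by omega
      have e2 : j + (d-7) + 7 = j + d := by omega
      rwa [e1, e2] at h1
    · intro t ht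
      have := h.eq (d - 7 + t) (by omega)
      rwa [← add_assoc, ← add_assoc] at this
    · have e1 : i + (d-7) + 7 = i + d := by omega
      have e2 : j + (d-7) + 7 = j + d := by omega
      rw [e1, e2]
      intro hc
      exact h.ne (congrArg Prod.fst hc)
  obtain ⟨ie, hie⟩ : ∃ m, H m = i + d := by
    rcases surj (i+d) with ⟨_, hm⟩ | ⟨hc, _⟩
    · exact hm
    · rw [hep.1] at hc; exact absurd hc (by simp)
  obtain ⟨je, hje⟩ : ∃ m, H m = j + d := by
    rcases surj (j+d) with ⟨_, hm⟩ | ⟨hc, _⟩
    · exact hm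
    · rw [hep.2] at hc; exact absurd hc (by simp)
  have hx0 : x i = x j := by simpa using h.eq 0 (by omega)
  have hs0 : sg i = sg j := congrArg Prod.fst hx0
  have he0 : ep i = ep j := congrArg Prod.snd hx0
  rcases surj j with ⟨hj, j0, hj0⟩ | ⟨hj, j0, hej0, hj0⟩
  · rcases surj i with ⟨_, i0, hi0⟩ | ⟨hc, _⟩
    · have hlt : j0 < je := H_strictMono.lt_iff_lt.1 (by omega)
      have hc := core (i0 := i0) (j0 := j0) (ie := ie) (je := je) (by omega) hlt ?_
      · refine ⟨i0, j0, je - j0, ⟨?_, hc.2, ?_⟩, ?_, by omega, by omega⟩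
        · exact H_strictMono.lt_iff_lt.1 (by have := h.lt; omega)
        · rw [← hc.1]
          have e1 : j0 + (je - j0) = je := by omega
          rw [e1, ← sg_H ie, ← sg_H je, hie, hje]
          exact h.ne
        · have e1 : j0 + (je - j0) = je := by omega
          rw [e1]; exact hje
      · intro t ht
        rw [hi0, hj0]
        exact h.eq t (by omega)
    · rw [he0, hj] at hc; exact absurd hc (by simp)
  · rcases surj i with ⟨hc, _⟩ | ⟨_, i0, hei0, hi0⟩
    · rw [he0, hj] at hc; exact absurd hc (by simp)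
    · have hlt : j0 < je := H_strictMono.lt_iff_lt.1 (by omega)
      have hss : sg i0 = sg j0 := by
        rw [← hi0, ← hj0, sg_H1 _ hei0, sg_H1 _ hej0] at hs0
        simpa using hs0
      have hc := core (i0 := i0) (j0 := j0) (ie := ie) (je := je) (by omega) hlt ?_
      · refine ⟨i0, j0, je - j0, ⟨?_, hc.2, ?_⟩, ?_, by omega, by omega⟩
        · exact H_strictMono.lt_iff_lt.1 (by have := h.lt; omega)
        · rw [← hc.1]
          have e1 : j0 + (je - j0) = je := by omega
          rw [e1, ← sg_H ie, ← sg_H je, hie, hje]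
          exact h.ne
        · have e1 : j0 + (je - j0) = je := by omega
          rw [e1]; exact hje
      · intro t ht
        rcases Nat.eq_zero_or_pos t with h0 | h0
        · subst h0
          simp only [Nat.add_zero, x, sg_H, ep_H, hss]
        · have := h.eq (t-1) (by omega)
          have e1 : i + (t-1) = H i0 + t := by omega
          have e2 : j + (t-1) = H j0 + t := by omega
          rwa [e1, e2] at this

lemma Tr.descend : ∀ (e : ℕ) {i j d : ℕ}, Tr i j d → 1 ≤ d → j + d = e →
    ∃ k I J d', Tr I J d' ∧ 1 ≤ d' ∧ d' ≤ 6 ∧ H^[k] (J+d') = e ∧ H^[k] J ≤ j ∧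
      (k = 0 → d = d') := by
  intro e
  induction e using Nat.strong_induction_on with
  | _ e ih =>
    intro i j d h hd1 he
    rcases Nat.lt_or_ge d 7 with hd | hd
    · exact ⟨0, i, j, d, h, hd1, by omega, by simpa using he, by simp, fun _ => rfl⟩
    · obtain ⟨i0, j0, d0, h0, h1, h2, h3⟩ := h.desub hd
      have hlt : j0 + d0 < e := by
        have := lt_H (j0+d0) (by omega)
        omega
      obtain ⟨k, I, J, d', g1, g2, g3, g4, g5, _⟩ := ih (j0+d0) hlt h0 h3 rfl
      refine ⟨k+1, I, J, d', g1, g2, g3, ?_, ?_, by intro hc; omega⟩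
      · rw [Function.iterate_succ_apply', g4, h1, he]
      · rw [Function.iterate_succ_apply']
        exact le_trans (H_strictMono.monotone g5) h2

/-- Lucas numbers, shifted by three: `Lu k = L_{k+3}`. -/
def Lu (k : ℕ) : ℕ := fib (k+4) + fib (k+2)

lemma H_Lu (k : ℕ) : H (Lu k) = Lu (k+1) := by
  unfold Lu
  have h1 : fib (k+2) < fib (k+3) := Nat.fib_lt_fib_succ (by omega)
  have h2 : H (fib (k+4) + fib (k+2)) = fib (k+5) + H (fib (k+2)) := H_rec (k := k+2) h1
  have h3 : H (fib (k+2) + 0) = fib (k+3) + H 0 := H_rec (k := k) (Nat.fib_pos.2 (by omega))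
  rw [H_zero, Nat.add_zero] at h3
  rw [h2, h3]
  rfl

lemma H_iter_Lu (k q : ℕ) : H^[k] (Lu q) = Lu (q+k) := by
  induction k with
  | zero => rfl
  | succ k ih => rw [Function.iterate_succ_apply', ih, H_Lu]; rfl

lemma H_iter_rec (k m : ℕ) : H^[k+2] m = H^[k+1] m + H^[k] m := by
  rw [Function.iterate_succ_apply', Function.iterate_succ_apply', H_H]

lemma Lu_strictMono : StrictMono Lu := by
  apply strictMono_nat_of_lt_succ
  intro n
  unfold Lu
  have h1 : fib (n+4) < fib (n+5) := Nat.fib_lt_fib_succ (by omega)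
  have h2 : fib (n+2) < fib (n+3) := Nat.fib_lt_fib_succ (by omega)
  have e1 : fib (n+1+4) = fib (n+5) := rfl
  have e2 : fib (n+1+2) = fib (n+3) := rfl
  omega

lemma H_iter_mono (k : ℕ) : Monotone (H^[k]) := H_strictMono.monotone.iterate k

/-- prefix of length 34 -/
def w34 : List (Bool × Bool) :=
  [A,B,C,C,D,C,D,A,C,D,A,A,B,C,D,A,A,B,A,B,C,C,D,A,A,B,A,B,C,A,B,C,C,D]

lemma win34 : win 0 34 = w34 := by
  have key : ∀ a b : ℕ, ∀ w, win 0 a = w → H a = b → win 0 b = w.flatMap sig := by
    intro a b w hw hb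
    have := win_H 0 a
    rw [H_zero, Nat.zero_add, hb, Nat.sub_zero, hw] at this
    exact this
  have h8 : H 8 = 13 := by
    have h1 : H (fib (4+2) + 0) = fib (4+3) + H 0 := H_rec (by decide)
    have e5 : fib 6 = 8 := rfl
    have e6 : fib 7 = 13 := rfl
    simp only [H_zero, Nat.add_zero, Nat.reduceAdd, e5, e6] at h1
    exact h1
  have h13 : H 13 = 21 := by
    have h1 : H (fib (5+2) + 0) = fib (5+3) + H 0 := H_rec (by decide)
    have e5 : fib 7 = 13 := rfl
    have e6 : fib 8 = 21 := rfl
    simp only [H_zero, Nat.add_zero, Nat.reduceAdd, e5, e6] at h1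
    exact h1
  have h21 : H 21 = 34 := by
    have h1 : H (fib (6+2) + 0) = fib (6+3) + H 0 := H_rec (by decide)
    have e5 : fib 8 = 21 := rfl
    have e6 : fib 9 = 34 := rfl
    simp only [H_zero, Nat.add_zero, Nat.reduceAdd, e5, e6] at h1
    exact h1
  have w13 := key 8 13 _ win_zero8 h8
  have w21 := key 13 21 _ w13 h13
  have w34' := key 21 34 _ w21 h21
  rw [w34']
  decide

lemma x_tab (n : ℕ) (hn : n < 34) : x n = w34.getD n A := by
  rw [← win34, win_getD 0 34 n hn, Nat.zero_add]

lemma H_tab (n : ℕ) (hn : n < 34) : H n = ((w34.take n).flatMap sig).length := by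
  have h1 := win_H 0 n
  rw [H_zero, Nat.zero_add, Nat.sub_zero] at h1
  have h2 : win 0 n = w34.take n := by
    rw [← win34]
    obtain ⟨c, hc⟩ := Nat.exists_eq_add_of_le hn.le
    rw [hc, win_take]
  rw [h2] at h1
  rw [← h1, win_length]

set_option synthInstance.maxSize 4000 in
set_option maxRecDepth 100000 in
/-- the finite check -/
lemma fin_check : ∀ E < 29, ∀ J < E, E ≤ J + 6 → ∀ I < J,
    (∀ t < E - J, w34.getD (I+t) A = w34.getD (J+t) A) →
    (w34.getD (I+(E-J)) A).1 ≠ (w34.getD E A).1 →
    ∃ q < 5, Lu q ≤ E ∧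
      ((w34.take E).flatMap sig).length ≤ ((w34.take J).flatMap sig).length + fib (q+3) ∧
      E + ((w34.take E).flatMap sig).length ≤
        J + ((w34.take J).flatMap sig).length + fib (q+4) := by
  decide +kernel

lemma Tr.terminal {I J d : ℕ} (h : Tr I J d) (hd1 : 1 ≤ d) (hd : d ≤ 6) :
    ∃ q, Lu q ≤ J + d ∧ H (J+d) ≤ H J + fib (q+3) ∧ (J+d) + H (J+d) ≤ J + H J + fib (q+4) := by
  rcases Nat.lt_or_ge (J+d) 29 with hE | hE
  · have hI := h.lt
    obtain ⟨q, _, h1, h2, h3⟩ := fin_check (J+d) hE J (by omega) (by omega) I hI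
      (by
        intro t ht
        rw [← x_tab _ (by omega), ← x_tab _ (by omega)]
        exact h.eq t (by omega))
      (by
        rw [← x_tab _ (by omega), ← x_tab _ (by omega)]
        have : J + d - J = d := by omega
        rw [this]
        exact h.ne)
    rw [← H_tab _ (by omega), ← H_tab _ (by omega)] at h2
    rw [← H_tab _ (by omega), ← H_tab _ (by omega)] at h3
    exact ⟨q, h1, h2, h3⟩
  · refine ⟨4, ?_, ?_, ?_⟩
    · show fib 8 + fib 6 ≤ J + d
      have e1 : fib 8 = 21 := rfl
      have e2 : fib 6 = 8 := rfl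
      omega
    · have := H_le_add J d
      have e1 : fib (4+3) = 13 := rfl
      omega
    · have := H_le_add J d
      have e1 : fib (4+4) = 21 := rfl
      omega

/-- Upper bound for the four-letter word. -/
theorem Tr.upper {i j d K : ℕ} (h : Tr i j d) (hd : 1 ≤ d) (he : j + d < Lu (K+1)) :
    d ≤ 6 ∨ d ≤ fib (K+2) := by
  obtain ⟨k, I, J, d', h1, h2, h3, h4, h5, h6⟩ := Tr.descend (j+d) h hd rfl
  rcases Nat.eq_zero_or_pos k with hk | hk
  · left
    rw [h6 hk]; exact h3
  · right
    obtain ⟨q, q1, q2, q3⟩ := h1.terminal h2 h3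
    have hqk : q + k ≤ K := by
      have := H_iter_mono k q1
      rw [H_iter_Lu, h4] at this
      have h7 : Lu (q+k) < Lu (K+1) := lt_of_le_of_lt this he
      have := Lu_strictMono.lt_iff_lt.1 h7
      omega
    have key : ∀ m, H^[m+1] (J+d') ≤ H^[m+1] J + fib (q+m+3) ∧
        H^[m+2] (J+d') ≤ H^[m+2] J + fib (q+m+4) := by
      intro m
      induction m with
      | zero =>
        refine ⟨by simpa using q2, ?_⟩
        have e1 : H^[0+2] (J+d') = H (H (J+d')) := rfl
        have e2 : H^[0+2] J = H (H J) := rfl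
        rw [e1, e2, H_H, H_H]
        have : fib (q+0+4) = fib (q+4) := rfl
        rw [this]; omega
      | succ m ih =>
        refine ⟨?_, ?_⟩
        · have := ih.2
          have e1 : q + (m+1) + 3 = q + m + 4 := by omega
          rw [e1]
          exact this
        · have e1 : H^[m+1+2] (J+d') = H^[m+2] (J+d') + H^[m+1] (J+d') := H_iter_rec (m+1) _
          have e2 : H^[m+1+2] J = H^[m+2] J + H^[m+1] J := H_iter_rec (m+1) _
          have e3 : fib (q + (m+1) + 4) = fib (q+m+3) + fib (q+m+4) := by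
            have := Nat.fib_add_two (n := q+m+3)
            have e4 : q + (m+1) + 4 = q + m + 3 + 2 := by omega
            rw [e4, this]
          rw [e1, e2, e3]
          omega
    obtain ⟨m, rfl⟩ : ∃ m, k = m + 1 := ⟨k-1, by omega⟩
    have h8 := (key m).1
    rw [h4] at h8
    have h9 : fib (q+m+3) ≤ fib (K+2) := Nat.fib_mono (by omega)
    omega

/-- base triple -/
lemma base : Tr 13 21 8 := by
  refine ⟨by omega, ?_, ?_⟩
  · intro t ht
    rw [x_tab _ (by omega), x_tab _ (by omega)]
    revert t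
    decide
  · have h1 := x_tab 21 (by omega)
    have h2 := x_tab 29 (by omega)
    have e1 : sg 21 = (x 21).1 := rfl
    have e2 : sg 29 = (x 29).1 := rfl
    show sg 21 ≠ sg 29
    rw [e1, e2, h1, h2]
    decide

lemma H_fib (k : ℕ) : H (fib (k+2)) = fib (k+3) := by
  have h3 : H (fib (k+2) + 0) = fib (k+3) + H 0 := H_rec (k := k) (Nat.fib_pos.2 (by omega))
  rw [H_zero, Nat.add_zero, Nat.add_zero] at h3
  exact h3

theorem lower (k : ℕ) : ∃ i, Tr i (fib (k+8)) (fib (k+6)) := by
  induction k with
  | zero => exact ⟨13, base⟩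
  | succ k ih =>
    obtain ⟨i, hi⟩ := ih
    refine ⟨H i, ?_⟩
    have h := hi.lift
    have h1 : H (fib (k+8)) = fib (k+9) := H_fib (k+6)
    have h2 : H (fib (k+8) + fib (k+6)) = fib (k+9) + fib (k+7) := by
      have := H_Lu (k+4)
      unfold Lu at this
      exact this
    rw [h1, h2] at h
    have h3 : fib (k+9) + fib (k+7) - fib (k+9) = fib (k+7) := by omega
    rw [h3] at h
    exact h

end Pool.Agent.V11199.ZP
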