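import Pool.Agent.V11199.ZP.Basic

/-!
Factors of length 8 of the four-letter word.
-/

namespace Pool.Agent.V11199.ZP

open Nat

/-- the four-letter word -/
def x (n : ℕ) : Bool × Bool := (sg n, ep n)

/-- the morphism -/
def sig (p : Bool × Bool) : List (Bool × Bool) :=
  if p.2 then [(p.1, false)] else [(p.1, false), (!p.1, true)]

/-- window of length `L` at `n` -/
def win (n L : ℕ) : List (Bool × Bool) := (List.range' n L).map x

lemma win_length (n L : ℕ) : (win n L).length = L := by simp [win]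

lemma win_zero (n : ℕ) : win n 0 = [] := by simp [win]

lemma win_one (n : ℕ) : win n 1 = [x n] := by simp [win]

lemma win_add (n a b : ℕ) : win n (a + b) = win n a ++ win (n+a) b := by
  unfold win
  rw [← List.map_append, List.range'_append_1]

lemma win_take (n a b : ℕ) : (win n (a + b)).take a = win n a := by
  rw [win_add, List.take_left' (win_length n a)]

lemma win_drop (n a b : ℕ) : (win n (a + b)).drop a = win (n+a) b := by
  rw [win_add, List.drop_left' (win_length n a)]

lemma win_H_one (m : ℕ) : win (H m) (H (m+1) - H m) = sig (x m) := by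
  cases h : ep m
  · rw [H_succ_false h]
    have h2 : H m + 2 - H m = 1 + 1 := by omega
    rw [h2, win_add, win_one, win_one]
    simp only [x, sig, sg_H, ep_H, h, sg_H1 m h, ep_H1 m h]
    simp
  · rw [H_succ_true h]
    have h2 : H m + 1 - H m = 1 := by omega
    rw [h2, win_one]
    simp only [x, sig, sg_H, ep_H, h]
    simp

lemma win_H (m L : ℕ) : win (H m) (H (m+L) - H m) = (win m L).flatMap sig := by
  induction L with
  | zero => simp [win]
  | succ L ih =>
    have h1 : H m ≤ H (m+L) := H_strictMono.monotone (by omega)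
    have h2 : H (m+L) ≤ H (m+L+1) := H_strictMono.monotone (by omega)
    have h3 : H (m + (L+1)) - H m = (H (m+L) - H m) + (H (m+L+1) - H (m+L)) := by
      have : m + (L+1) = m + L + 1 := by omega
      rw [this]; omega
    have h4 : H m + (H (m+L) - H m) = H (m+L) := by omega
    rw [h3, win_add, ih, h4, win_H_one, win_add, List.flatMap_append, win_one]
    simp

abbrev A : Bool × Bool := (false, false)
abbrev B : Bool × Bool := (true, true)
abbrev C : Bool × Bool := (true, false)
abbrev D : Bool × Bool := (false, true)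

/-- all the length 8 factors -/
def L48 : List (List (Bool × Bool)) :=
  [ [A,B,C,C,D,C,D,A], [B,C,C,D,C,D,A,C], [C,C,D,C,D,A,C,D], [C,D,C,D,A,C,D,A],
    [D,C,D,A,C,D,A,A], [C,D,A,C,D,A,A,B], [D,A,C,D,A,A,B,C], [A,C,D,A,A,B,C,D],
    [C,D,A,A,B,C,D,A], [D,A,A,B,C,D,A,A], [A,A,B,C,D,A,A,B], [A,B,C,D,A,A,B,A],
    [B,C,D,A,A,B,A,B], [C,D,A,A,B,A,B,C], [D,A,A,B,A,B,C,C], [A,A,B,A,B,C,C,D],
    [A,B,A,B,C,C,D,A], [B,A,B,C,C,D,A,A], [A,B,C,C,D,A,A,B], [B,C,C,D,A,A,B,A],
    [C,C,D,A,A,B,A,B], [D,A,A,B,A,B,C,A], [A,A,B,A,B,C,A,B], [A,B,A,B,C,A,B,C],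
    [B,A,B,C,A,B,C,C], [A,B,C,A,B,C,C,D], [B,C,A,B,C,C,D,C], [C,A,B,C,C,D,C,D],
    [B,C,C,D,C,D,A,A], [C,C,D,C,D,A,A,B], [C,D,C,D,A,A,B,A], [D,C,D,A,A,B,A,B],
    [B,C,A,B,C,C,D,A], [C,A,B,C,C,D,A,B], [A,B,C,C,D,A,B,C], [B,C,C,D,A,B,C,C],
    [C,C,D,A,B,C,C,D], [C,D,A,B,C,C,D,C], [D,A,B,C,C,D,C,D], [D,A,C,D,A,A,B,A],
    [A,C,D,A,A,B,A,B], [C,D,C,D,A,A,B,C], [D,C,D,A,A,B,C,C], [C,D,A,A,B,C,C,D],
    [D,A,A,B,C,C,D,C], [A,A,B,C,C,D,C,D], [A,B,A,B,C,C,D,C], [B,A,B,C,C,D,C,D] ]

set_option maxRecDepth 100000 in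
lemma L48_step : ∀ w ∈ L48, (w.flatMap sig).take 8 ∈ L48 ∧
    ((w.headD A).2 = false → ((w.flatMap sig).drop 1).take 8 ∈ L48) := by
  decide +kernel

lemma H_add_ge (m L : ℕ) : H m + L ≤ H (m+L) := by
  induction L with
  | zero => simp
  | succ L ih =>
    have h2 : H (m+L) < H (m+L+1) := H_strictMono (by omega)
    have : m + (L+1) = m + L + 1 := by omega
    rw [this]; omega

lemma win_image (m : ℕ) : win (H m) 8 = ((win m 8).flatMap sig).take 8 := by
  rw [← win_H]
  have h := H_add_ge m 8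
  obtain ⟨c, hc⟩ := Nat.exists_eq_add_of_le h
  have : H (m+8) - H m = 8 + c := by omega
  rw [this, win_take]

lemma win_image' (m : ℕ) (he : ep m = false) :
    win (H m + 1) 8 = (((win m 8).flatMap sig).drop 1).take 8 := by
  rw [← win_H]
  have h := H_add_ge (m+1) 7
  rw [H_succ_false he] at h
  have h9 : m + 1 + 7 = m + 8 := by omega
  rw [h9] at h
  obtain ⟨c, hc⟩ := Nat.exists_eq_add_of_le h
  have : H (m+8) - H m = 1 + (8 + c) := by omega
  rw [this, win_drop, win_take]

lemma x0 : x 0 = A := by simp [x, sg_zero, ep_zero]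

lemma H_vals : H 0 = 0 ∧ H 1 = 2 ∧ H 2 = 3 ∧ H 3 = 5 ∧ H 4 = 7 := by
  have h1 : H (fib (0+2) + 0) = fib (0+3) + H 0 := H_rec (by simp)
  have h2 : H (fib (1+2) + 0) = fib (1+3) + H 0 := H_rec (by simp)
  have h3 : H (fib (2+2) + 0) = fib (2+3) + H 0 := H_rec (by simp)
  have h4 : H (fib (2+2) + 1) = fib (2+3) + H 1 := H_rec (by decide)
  have e2 : fib 2 = 1 := rfl
  have e3 : fib 3 = 2 := rfl
  have e4 : fib 4 = 3 := rfl
  have e5 : fib 5 = 5 := rfl
  simp only [H_zero, e2, e3, e4, e5, Nat.zero_add, Nat.add_zero, Nat.reduceAdd] at h1 h2 h3 h4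
  refine ⟨H_zero, h1, h2, h3, ?_⟩
  rw [h1] at h4
  exact h4

lemma win_zero8 : win 0 8 = [A,B,C,C,D,C,D,A] := by
  -- windows at 0 are prefixes of the fixed point
  have key : ∀ a b : ℕ, ∀ w, win 0 a = w → H a = b → win 0 b = w.flatMap sig := by
    intro a b w hw hb
    have := win_H 0 a
    rw [H_zero, Nat.zero_add, hb, Nat.sub_zero, hw] at this
    exact this
  obtain ⟨_, h1, h2, h3, h4⟩ := H_vals
  have w1 : win 0 1 = [A] := by rw [win_one, x0]
  have w2 := key 1 2 _ w1 h1
  have w3 := key 2 3 _ w2 h2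
  have w5 := key 3 5 _ w3 h3
  have h5 : H 5 = 8 := by
    have h1 : H (fib (3+2) + 0) = fib (3+3) + H 0 := H_rec (by simp)
    have e5 : fib 5 = 5 := rfl
    have e6 : fib 6 = 8 := rfl
    simp only [H_zero, Nat.add_zero, Nat.reduceAdd, e5, e6] at h1
    exact h1
  have w8 := key 5 8 _ w5 h5
  rw [w8]
  decide

lemma W8 (n : ℕ) : win n 8 ∈ L48 := by
  induction n using Nat.strong_induction_on with
  | _ n ih =>
    rcases Nat.eq_zero_or_pos n with h0 | h0
    · subst h0; rw [win_zero8]; decide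
    · rcases surj n with ⟨_, m, hm⟩ | ⟨_, m, hem, hm⟩
      · have hmn : m < n := by
          rcases Nat.eq_zero_or_pos m with h | h
          · subst h; omega
          · have := lt_H m h; omega
        rw [← hm, win_image]
        exact (L48_step _ (ih m hmn)).1
      · have hmn : m < n := by
          have := le_H m; omega
        rw [← hm, win_image' m hem]
        refine (L48_step _ (ih m hmn)).2 ?_
        have : win m (1+7) = win m 1 ++ win (m+1) 7 := win_add m 1 7
        have h8 : win m 8 = x m :: win (m+1) 7 := by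
          rw [show (8:ℕ) = 1 + 7 from rfl, this, win_one]; rfl
        rw [h8]
        exact hem

/-- if two windows of length 7 agree and the next letters have different parity then both next
letters have `ep = false`. -/
lemma L48_next : ∀ w ∈ L48, ∀ w' ∈ L48, w.take 7 = w'.take 7 →
    w.getD 7 A ≠ w'.getD 7 A → (w.getD 7 A).2 = false ∧ (w'.getD 7 A).2 = false := by
  decide +kernel

/-- decoding of binary windows of length 5 -/
lemma L48_dec : ∀ w ∈ L48, ∀ w' ∈ L48, (w.take 5).map Prod.fst = (w'.take 5).map Prod.fst →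
    ((w.drop 1).take 4) = ((w'.drop 1).take 4) := by
  decide +kernel

lemma win_getD (n L t : ℕ) (ht : t < L) (d) : (win n L).getD t d = x (n+t) := by
  unfold win
  rw [List.getD_eq_getElem?_getD, List.getElem?_map, List.getElem?_range' ht]
  simp

lemma win_eq_iff (n m L : ℕ) : win n L = win m L ↔ ∀ t < L, x (n+t) = x (m+t) := by
  constructor
  · intro h t ht
    rw [← win_getD n L t ht A, h, win_getD m L t ht A]
  · intro h
    apply List.ext_getElem
    · rw [win_length, win_length]
    · intro i h1 h2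
      rw [win_length] at h1
      have := h i h1
      rw [← win_getD n L i h1 A, ← win_getD m L i h1 A] at this
      simpa [List.getD_eq_getElem?_getD, win_length, h1] using this

lemma next_letters {n m : ℕ} (h : ∀ t < 7, x (n+t) = x (m+t)) (hne : x (n+7) ≠ x (m+7)) :
    ep (n+7) = false ∧ ep (m+7) = false := by
  have h1 := L48_next _ (W8 n) _ (W8 m)
  rw [win_getD n 8 7 (by omega), win_getD m 8 7 (by omega)] at h1
  rw [show (8:ℕ) = 7 + 1 from rfl, win_take, win_take] at h1
  exact h1 ((win_eq_iff n m 7).2 h) hne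

lemma decode {n m : ℕ} (h : ∀ t < 5, sg (n+t) = sg (m+t)) :
    ∀ t, 1 ≤ t → t < 5 → x (n+t) = x (m+t) := by
  have h1 := L48_dec _ (W8 n) _ (W8 m)
  rw [show (8:ℕ) = 5 + 3 from rfl, win_take, win_take] at h1
  rw [show (5 + 3:ℕ) = 1 + (4+3) from rfl, win_drop, win_drop, win_take, win_take] at h1
  have h2 : (win n 5).map Prod.fst = (win m 5).map Prod.fst := by
    unfold win
    apply List.ext_getElem
    · simp
    · intro i h3 h4
      simp only [List.length_map, List.length_range'] at h3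
      simp only [List.getElem_map, List.getElem_range', x]
      have := h i h3
      simpa using this
  have h3 := (win_eq_iff (n+1) (m+1) 4).1 (h1 h2)
  intro t ht1 ht5
  have := h3 (t-1) (by omega)
  have e1 : n + 1 + (t-1) = n + t := by omega
  have e2 : m + 1 + (t-1) = m + t := by omega
  rw [e1, e2] at this
  exact this

end Pool.Agent.V11199.ZP
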